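import Mathlib
import Pool.Agent.Lib.Helper57.SharpCore

/-!
The range of `k` in the uniform prime `k`-tuples statement cannot be extended to
`k ≤ (1 + ε) log x / log log x`: beyond this bound almost no admissible `k`-element set of integers
in `[0, x^(1-δ)]` has a translate by a positive integer `n ≤ x` consisting of primes.
-/

open Finset Filter Pool.Agent.Lib.Helper57

namespace Pool.Agent.Results.MP_f686a1_nt.AlmostNoneAboveThreshold

/-- A finite set of non-negative integers is admissible if for every prime `p` some residue class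
modulo `p` contains none of its elements. -/
def Admissible (A : Finset ℕ) : Prop :=
  ∀ p : ℕ, p.Prime → ∃ r : ZMod p, ∀ a ∈ A, (a : ZMod p) ≠ r

/-- Some positive integer `n ≤ x` makes all `n + a`, `a ∈ A`, prime. -/
def HasPrimeTranslate (x : ℝ) (A : Finset ℕ) : Prop :=
  ∃ n : ℕ, 1 ≤ n ∧ (n : ℝ) ≤ x ∧ ∀ a ∈ A, (n + a).Prime

/-- The admissible sets with `k` elements, all at most `x ^ (1 - δ)`. -/
def admissibleSets (x δ : ℝ) (k : ℕ) : Set (Finset ℕ) :=
  {A | A.card = k ∧ Admissible A ∧ ∀ a ∈ A, (a : ℝ) ≤ x ^ (1 - δ)}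

lemma admissible_iff (A : Finset ℕ) : Admissible A ↔ Adm A := by
  constructor
  · intro hA p hp
    have : Fact p.Prime := ⟨hp⟩
    obtain ⟨r, hr⟩ := hA p hp
    refine ⟨(-r).val, fun a ha hdvd => hr a ha ?_⟩
    rw [← ZMod.natCast_eq_zero_iff] at hdvd
    push_cast at hdvd
    rw [ZMod.natCast_zmod_val] at hdvd
    linear_combination hdvd
  · intro hA p hp
    obtain ⟨r, hr⟩ := hA p hp
    refine ⟨-(r : ZMod p), fun a ha h => hr a ha ?_⟩
    rw [← ZMod.natCast_eq_zero_iff]
    push_cast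
    rw [h]; ring

/-- **Almost no prime translates above the threshold.** Let `ε > 0`, `0 < δ < 1` and `B` be fixed.
For all large `x` and all `k` with `(1 + ε) log x / log log x ≤ k ≤ (log x) ^ B`, there are
admissible `k`-element sets in `[0, x^(1-δ)]`, and at most the proportion `x^(-ε/2)` of them have
a translate by some positive integer `n ≤ x` consisting of primes. -/
theorem result (ε δ : ℝ) (B : ℕ) (hε : 0 < ε) (hδ : 0 < δ) (hδ1 : δ < 1) :
    ∃ x₀ : ℝ, ∀ x : ℝ, x₀ ≤ x → ∀ k : ℕ,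
      (1 + ε) * Real.log x ≤ k * Real.log (Real.log x) → (k : ℝ) ≤ Real.log x ^ B →
      (admissibleSets x δ k).Nonempty ∧
      (({A ∈ admissibleSets x δ k | HasPrimeTranslate x A}.ncard : ℕ) : ℝ) ≤
        x ^ (-(ε / 2)) * (admissibleSets x δ k).ncard := by
  obtain ⟨κ, hκ⟩ : ∃ κ : ℝ, κ = 1 - δ := ⟨_, rfl⟩
  have hκ0 : 0 < κ := by linarith
  have hδ0 := hδ
  obtain ⟨η, hη⟩ : ∃ η : ℝ, η = ε / (2 * (1 + ε)) := ⟨_, rfl⟩
  have hη0 : 0 < η := by rw [hη]; positivity
  -- the eventual inequalities in `y = log x`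
  have hB0 : (0 : ℝ) < (B : ℝ) + 1 := by positivity
  have e1 : ∀ᶠ y : ℝ in atTop, 2 * y ^ (1213 * B) * (2400 * (B * Real.log y)) ≤
      Real.exp (κ * y) := by
    have h1 := (isLittleO_pow_exp_pos_mul_atTop (1213 * B + 1) hκ0).def
      (show (0 : ℝ) < 1 / (4800 * (B + 1)) by positivity)
    filter_upwards [h1, eventually_ge_atTop (1 : ℝ)] with y hy hy1
    rw [Real.norm_of_nonneg (by positivity), Real.norm_of_nonneg (Real.exp_pos _).le] at hy
    have hlog : Real.log y ≤ y := (Real.log_le_sub_one_of_pos (by linarith)).trans (by linarith)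
    have hlog0 : 0 ≤ Real.log y := Real.log_nonneg hy1
    have hyB : 0 ≤ y ^ (1213 * B) := by positivity
    calc 2 * y ^ (1213 * B) * (2400 * (B * Real.log y))
        ≤ 2 * y ^ (1213 * B) * (2400 * ((B + 1) * y)) := by
          apply mul_le_mul_of_nonneg_left _ (by positivity)
          apply mul_le_mul_of_nonneg_left _ (by norm_num)
          apply mul_le_mul _ hlog hlog0 (by positivity)
          linarith
      _ = (4800 * (B + 1)) * y ^ (1213 * B + 1) := by ring
      _ ≤ (4800 * (B + 1)) * (1 / (4800 * (B + 1)) * Real.exp (κ * y)) := by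
          apply mul_le_mul_of_nonneg_left hy (by positivity)
      _ = Real.exp (κ * y) := by field_simp
  have e2 : ∀ᶠ y : ℝ in atTop, 10 ^ 5 / κ * (2400 * (B * Real.log y)) ≤
      Real.exp (η * Real.log y) := by
    have h1 := (isLittleO_pow_exp_pos_mul_atTop 1 hη0).def
      (show (0 : ℝ) < κ / (10 ^ 5 * 2400 * (B + 1)) by positivity)
    have h2 := Real.tendsto_log_atTop.eventually h1
    filter_upwards [h2, eventually_ge_atTop (1 : ℝ)] with y hy hy1
    have hlog0 : 0 ≤ Real.log y := Real.log_nonneg hy1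
    rw [pow_one, Real.norm_of_nonneg hlog0, Real.norm_of_nonneg (Real.exp_pos _).le] at hy
    calc 10 ^ 5 / κ * (2400 * (B * Real.log y))
        ≤ 10 ^ 5 / κ * (2400 * ((B + 1) *
          (κ / (10 ^ 5 * 2400 * (B + 1)) * Real.exp (η * Real.log y)))) := by
          apply mul_le_mul_of_nonneg_left _ (by positivity)
          apply mul_le_mul_of_nonneg_left _ (by norm_num)
          apply mul_le_mul _ hy hlog0 (by positivity)
          linarith
      _ = Real.exp (η * Real.log y) := by field_simp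
  obtain ⟨y₀, hy₀⟩ := eventually_atTop.mp (e1.and (e2.and
    ((eventually_ge_atTop (7000 / κ)).and ((eventually_ge_atTop (1 : ℝ)).and
      (eventually_ge_atTop (Real.exp (Real.exp 5)))))))
  refine ⟨Real.exp (max y₀ 1), fun x hx k hk1 hk2 => ?_⟩
  have hx0 : 0 < x := lt_of_lt_of_le (Real.exp_pos _) hx
  set y := Real.log x with hy
  have hy' : max y₀ 1 ≤ y := (Real.le_log_iff_exp_le hx0).mpr hx
  obtain ⟨c1, c2, c3, c4, c5⟩ := hy₀ y ((le_max_left _ _).trans hy')
  have hy0 : 0 < y := by linarith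
  have hk5 : 5 ≤ k := by
    -- `k log y ≥ y` and `log y ≤ sqrt`-type bound
    have h1 : y ≤ k * Real.log y := by nlinarith
    have h2 : Real.exp 5 ≤ Real.log y := (Real.le_log_iff_exp_le hy0).mpr c5
    have h3 : (5 : ℝ) * Real.log y ≤ y := by
      -- `y = exp (log y) ≥ (log y)^2 / 2`
      have h4 := Real.pow_div_factorial_le_exp (Real.log y) (by
        have := Real.exp_pos 5; linarith) 2
      rw [Real.exp_log hy0] at h4
      have h5 : ((2 : ℕ).factorial : ℝ) = 2 := by norm_num [Nat.factorial]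
      rw [h5] at h4
      have h6 : (10 : ℝ) ≤ Real.exp 5 := by
        have h7 := Real.exp_one_gt_d9
        have h8 : Real.exp 5 = Real.exp 1 ^ 5 := by rw [← Real.exp_nat_mul]; norm_num
        rw [h8]
        calc (10 : ℝ) ≤ 2.7 ^ 5 := by norm_num
          _ ≤ Real.exp 1 ^ 5 := pow_le_pow_left₀ (by norm_num) (by linarith) 5
      nlinarith
    have h4 : 0 < Real.log y := by have := Real.exp_pos 5; linarith
    have h5 : (5 : ℝ) * Real.log y ≤ k * Real.log y := h3.trans h1
    have h6 : (5 : ℝ) ≤ k := le_of_mul_le_mul_right h5 h4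
    exact_mod_cast h6
  obtain ⟨hpos, hcore⟩ := sharp_core κ ε y B hκ0 hε k hk5 c3 c4 hk1 hk2 c1 (by rw [← hη]; exact c2)
  have hexpy : Real.exp y = x := Real.exp_log hx0
  have hexpκ : Real.exp (κ * y) = x ^ (1 - δ) := by
    rw [Real.rpow_def_of_pos hx0, hκ]; congr 1; ring
  have hexpε : Real.exp (-(ε / 2 * y)) = x ^ (-(ε / 2)) := by
    rw [Real.rpow_def_of_pos hx0]; congr 1; ring
  rw [hexpy, hexpκ, hexpε] at hcore
  rw [hexpκ] at hpos
  set Y := ⌊x ^ (1 - δ)⌋₊ with hY
  set N := ⌊x⌋₊ with hN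
  have hpow : 0 ≤ x ^ (1 - δ) := by positivity
  have hmem : ∀ A : Finset ℕ, (∀ a ∈ A, (a : ℝ) ≤ x ^ (1 - δ)) ↔ A ⊆ range (Y + 1) := by
    intro A
    constructor
    · intro h a ha
      rw [mem_range, Nat.lt_add_one_iff, hY]
      exact Nat.le_floor (h a ha)
    · intro h a ha
      have h5 := h ha
      rw [mem_range, Nat.lt_add_one_iff] at h5
      calc (a : ℝ) ≤ Y := by exact_mod_cast h5
        _ ≤ _ := Nat.floor_le hpow
  have hadm : admissibleSets x δ k = ↑(admFin Y k) := by
    ext A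
    rw [Finset.mem_coe, mem_admFin]
    show A.card = k ∧ Admissible A ∧ (∀ a ∈ A, (a : ℝ) ≤ x ^ (1 - δ)) ↔ _
    rw [hmem, admissible_iff]
    tauto
  have hgood : {A ∈ admissibleSets x δ k | HasPrimeTranslate x A} ⊆
      (↑(transFin N Y k) : Set (Finset ℕ)) := by
    rintro A ⟨hA1, n, hn1, hn2, hn3⟩
    rw [hadm, Finset.mem_coe, mem_admFin] at hA1
    rw [Finset.mem_coe, mem_transFin]
    refine ⟨hA1.1, n, ?_, hn3⟩
    rw [mem_Icc]
    exact ⟨hn1, Nat.le_floor hn2⟩
  constructor
  · rw [hadm]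
    exact Finset.coe_nonempty.mpr (Finset.card_pos.mp hpos)
  · have h5 : {A ∈ admissibleSets x δ k | HasPrimeTranslate x A}.ncard ≤ (transFin N Y k).card := by
      rw [← Set.ncard_coe_finset]
      exact Set.ncard_le_ncard hgood (Finset.finite_toSet _)
    have h6 : (({A ∈ admissibleSets x δ k | HasPrimeTranslate x A}.ncard : ℕ) : ℝ) ≤
        ((transFin N Y k).card : ℝ) := by exact_mod_cast h5
    refine h6.trans (hcore.trans (le_of_eq ?_))
    rw [hadm, Set.ncard_coe_finset]

end Pool.Agent.Results.MP_f686a1_nt.AlmostNoneAboveThreshold
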